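import Pool.Agent.W622.SC.Final

/-! # MP_88597d_gt, Q2: a counterexample

A finite complex `X` which is homotopy equivalent to its double cover, with finitely presented
kernel of `π₁(X) → ℤ`, whose infinite cyclic cover is not finitely dominated. -/

set_option autoImplicit false

namespace Pool.Agent.Results.MP_88597d_gt.SelfCoverDomination

/-- A space is finitely dominated: it is a homotopy retract of a finite CW complex. -/
def FinitelyDominated (Y : Type) [TopologicalSpace Y] : Prop :=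
  ∃ (K : Type) (_ : TopologicalSpace K) (_ : T2Space K)
    (_ : Topology.CWComplex (Set.univ : Set K)),
    Topology.RelCWComplex.Finite (Set.univ : Set K) ∧
    ∃ (i : C(Y, K)) (r : C(K, Y)), (r.comp i).Homotopic (ContinuousMap.id Y)

theorem result : ∃ (X : Type) (_ : TopologicalSpace X) (_ : T2Space X)
    (_ : Topology.CWComplex (Set.univ : Set X)) (x₀ : X)
    (φ : FundamentalGroup X x₀ →* Multiplicative ℤ)
    (X₂ : Type) (_ : TopologicalSpace X₂) (p : X₂ → X) (h : C(X, X₂))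
    (Xinf : Type) (_ : TopologicalSpace Xinf) (pinf : Xinf → X) (xinf : Xinf),
    PathConnectedSpace X ∧
    Function.Surjective φ ∧
    (∃ (n : ℕ) (R : Finset (FreeGroup (Fin n))),
      Nonempty (↥φ.ker ≃* PresentedGroup (R : Set (FreeGroup (Fin n))))) ∧
    PathConnectedSpace X₂ ∧ IsCoveringMap p ∧
    (∀ γ : Path x₀ x₀, (∃ γ' : Path (h x₀) (h x₀), ∀ s, p (γ' s) = γ s) ↔
      (2 : ℤ) ∣ Multiplicative.toAdd (φ (FundamentalGroup.fromPath (Quotient.mk _ γ)))) ∧
    (∃ g : C(X₂, X), (g.comp h).Homotopic (ContinuousMap.id X) ∧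
      (h.comp g).Homotopic (ContinuousMap.id X₂)) ∧
    (∀ δ : Path (h x₀) (h x₀),
      (∃ γ : Path x₀ x₀, φ (FundamentalGroup.fromPath (Quotient.mk _ γ)) = 1 ∧
        ∀ s, p (δ s) = γ s) ↔
      (∃ γ : Path x₀ x₀, φ (FundamentalGroup.fromPath (Quotient.mk _ γ)) = 1 ∧
        (γ.map h.continuous).Homotopic δ)) ∧
    PathConnectedSpace Xinf ∧ IsCoveringMap pinf ∧
    (∀ γ : Path x₀ x₀, (∃ γ' : Path xinf xinf, ∀ s, pinf (γ' s) = γ s) ↔
      φ (FundamentalGroup.fromPath (Quotient.mk _ γ)) = 1) ∧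
    Topology.RelCWComplex.Finite (Set.univ : Set X) ∧
    FinitelyDominated X ∧ ¬ FinitelyDominated Xinf := by
  obtain ⟨X, _, _, cw, x₀, φ, X₂, _, p, h, Z, _, pz, z₀, hx, hfin, hX, hX₂, hZ, hs, hfp, hcov,
    hcard, h2, ⟨g, hg0, hg1, hg2⟩, hφ2, hcond, hcz, hz0, hzl, hnd, hnf⟩ :=
    Pool.Agent.W622.SC.hyps.final
  refine ⟨X, inferInstance, inferInstance, cw, x₀, φ, X₂, inferInstance, p, h, Z, inferInstance,
    pz, z₀, hX, hs, hfp, hX₂, hcov, h2, ⟨g, hg1, hg2⟩, hcond, hZ, hcz, hzl, hfin,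
    ⟨X, inferInstance, inferInstance, cw, hfin, ContinuousMap.id X, ContinuousMap.id X,
      ContinuousMap.Homotopic.refl _⟩, ?_⟩
  rintro ⟨K, _, _, cwK, hK, i, r, hri⟩
  have : CompactSpace K := Pool.Agent.W622.SC.compact_of_finite hK
  exact hnd K inferInstance this i r hri

end Pool.Agent.Results.MP_88597d_gt.SelfCoverDomination
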